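import Pool.Agent.H.MP_fa5791_lc.A

set_option autoImplicit false

namespace Pool.Agent.Results.MP_460ee8_lc.All

open Pool.Agent.Lib.helper21.PR Pool.Agent.H.MP_fa5791_lc Filter Set Order Encodable Denumerable
open Nat.Partrec Nat.Partrec.Code

attribute [local irreducible] Primrec Computable

variable {Q : Type} [BooleanAlgebra Q] [Primcodable Q]

/-- computably enumerable ideals -/
def CE (I : Ideal Q) : Prop := REPred (· ∈ I)

/-- maximal c.e. ideals -/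
def IsMax (I : Ideal Q) : Prop := CE I ∧ {J | CE J ∧ I ≤ J}.Infinite ∧
  ∀ J, CE J → I ≤ J → ∃ x, J = I ⊔ Ideal.principal x

open Classical in
/-- characteristic function -/
noncomputable def chi (S : Set ℕ) : ℕ →. ℕ := fun n => Part.some (if n ∈ S then 1 else 0)

theorem chi_eq (S : Set ℕ) : chi S = Lib.helper21.Fn.orc fun n => cd (n ∈ S) := funext fun n => by
  by_cases h : n ∈ S
  · simp [chi, Lib.helper21.Fn.orc, h, cd_true.2]
  · simp [chi, Lib.helper21.Fn.orc, h, Bool.eq_false_iff.2 (mt cd_true.1 id)]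

theorem ideal {g : ℕ → Q → Prop} (h : RI O fun z : Q × ℕ => pw (g z.2 z.1)) (h1 : g 0 ⊥)
    (h2 : ∀ t u x y, t ≤ u → y ≤ x → g t x → g u y) (h3 : ∀ t x y, g t x → g t y → g t (x ⊔ y)) :
    ∃ K : Ideal Q, CE K ∧ ∀ x, x ∈ K ↔ ∃ t, g t x :=
  ⟨⟨⟨{x | ∃ t, g t x}, fun _ _ k ⟨t, a⟩ => ⟨t, h2 _ _ _ _ le_rfl k a⟩⟩, ⟨_, 0, h1⟩, fun x ⟨t, a⟩ y ⟨u, b⟩ =>
    ⟨x ⊔ y, ⟨_, h3 _ _ _ (h2 _ _ _ _ (le_max_left t u) le_rfl a) (h2 _ _ _ _ (le_max_right t u) le_rfl b)⟩,
      le_sup_left, le_sup_right⟩⟩, (r_pw (ri_re (i_exists h).un)).re, fun _ => .rfl⟩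

theorem run (h1 : CI O fun z : Q × Q => z.1 ⊓ z.2) (h2 : CI O fun x : Q => xᶜ) [Nontrivial Q]
    (hQ : ∀ a : Q, ¬ IsAtom a) {al : ℕ → ℕ → Bool} (h3 : CI O fun z : ℕ × ℕ => al z.1 z.2) (h4 : ∀ t, al t t)
    {w : Q → ℕ → ℕ} (h5 : CI O fun z : Q × ℕ => w z.1 z.2) {q : ℕ → Q} (h6 : CI O q) :
    ∃ (f : ℕ → ℕ → Q) (p : ℕ → ℕ), CI O (fun z : ℕ × ℕ => f z.1 z.2) ∧ ∀ t, (p t ≤ t ∧ al (p t) t ∧
      ∀ i ≤ t, al i t → w (f t i) t ≤ w (f t (p t)) t) ∧ f (t + 1) (t + 1) ≤ f t (p t) ∧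
        (∀ i ≤ t, f (t + 1) i ≤ f t i) ∧ (∀ i ≤ t + 1, f (t + 1) i ≤ q t ∨ f (t + 1) i ⊓ q t = ⊥) ∧
          ∀ i ≤ t, f t i ≠ ⊥ ∧ ∀ j ≤ t, i ≠ j → f t i ⊓ f t j = ⊥ := by
  classical
  obtain ⟨sp, s1, s2⟩ := RI.choice (Y := O) (R := fun a b : Q => b ⊓ a = b ∧ (a = ⊥ ∨ b ≠ ⊥ ∧ a ⊓ bᶜ ≠ ⊥))
    (by fun_prop) fun a => by
      by_cases h : a = ⊥
      · exact ⟨⊥, by simp [h]⟩
      · obtain ⟨b, b1, b2⟩ : ∃ b, b < a ∧ b ≠ ⊥ := by simpa [IsAtom, h] using hQ a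
        exact ⟨b, inf_eq_left.2 b1.le, .inr ⟨b2, fun k => b1.not_ge (sdiff_eq_bot_iff.1 (sdiff_eq.trans k))⟩⟩
  obtain ⟨P, p1, p2⟩ := RI.choice (Y := O) (R := fun (z : ℕ × List Q) k => k ≤ z.1 ∧ al k z.1 ∧
      ∀ i < z.1 + 1, al i z.1 → w (z.2.getD i ⊤) z.1 ≤ w (z.2.getD k ⊤) z.1) (by fun_prop) fun z => by
    obtain ⟨k, a, b⟩ := ((Finset.range (z.1 + 1)).filter (al · z.1)).exists_max_image
      (fun i => w (z.2.getD i ⊤) z.1) ⟨z.1, by simp [h4]⟩
    simp only [Finset.mem_filter, Finset.mem_range, and_imp] at a b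
    exact ⟨k, by omega, a.2, b⟩
  obtain ⟨d, d1, d2⟩ := RI.choice (Y := O) (R := fun (z : ℕ × Q) b => b ⊓ z.2 = b ∧ (z.2 = ⊥ ∨ b ≠ ⊥) ∧
      (b ⊓ q z.1 = b ∨ b ⊓ q z.1 = ⊥)) (by fun_prop) fun z => by
    by_cases h : z.2 ⊓ q z.1 = ⊥
    exacts [⟨z.2, by simp [h, em]⟩, ⟨z.2 ⊓ q z.1, by simp [h]⟩]
  obtain ⟨r, r1, r2⟩ : ∃ r : ℕ → List Q → ℕ → Q, CI O (fun z : ℕ × List Q × ℕ => r z.1 z.2.1 z.2.2) ∧ ∀ t l i,
      r t l i = if i = t + 1 then sp (l.getD (P (t, l)) ⊤) else if i = P (t, l) then l.getD i ⊤ ⊓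
        (sp (l.getD i ⊤))ᶜ else l.getD i ⊤ := ⟨_, by fun_prop, fun _ _ _ => rfl⟩
  obtain ⟨st, t1, t2, t3⟩ : ∃ st : ℕ → List Q, CI O st ∧ st 0 = [] ∧ ∀ t, st (t + 1) =
      (List.range (t + 2)).map fun i => d (t, r t (st t) i) :=
    ⟨fun t => Nat.rec [] (fun t l => (List.range (t + 2)).map fun i => d (t, r t l i)) t, by fun_prop, rfl,
      fun _ => rfl⟩
  have e : ∀ t, ∀ i ≤ t + 1, (st (t + 1)).getD i ⊤ = d (t, r t (st t) i) := fun t i h => by
    simp [t3, Nat.lt_succ_of_le h]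
  have c : ∀ t i, d (t, r t (st t) i) ≤ r t (st t) i := fun t i => inf_eq_left.1 (d2 _).1
  have a : ∀ t, (st (t + 1)).getD (t + 1) ⊤ ≤ sp ((st t).getD (P (t, st t)) ⊤) := fun t => by
    rw [e _ _ le_rfl]; exact (c _ _).trans_eq (by rw [r2, if_pos rfl])
  have b : ∀ t, ∀ i ≤ t, (st (t + 1)).getD i ⊤ ≤ (st t).getD i ⊤ := fun t i h => by
    rw [e _ _ (by omega)]
    refine (c _ _).trans ?_
    rw [r2, if_neg (by omega)]
    split_ifs
    exacts [inf_le_left, le_rfl]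
  refine ⟨fun t i => (st t).getD i ⊤, fun t => P (t, st t), by fun_prop, fun t => ⟨⟨(p2 (t, st t)).1,
    (p2 (t, st t)).2.1, fun i h => (p2 (t, st t)).2.2 i (Nat.lt_succ_of_le h)⟩, (a t).trans (inf_eq_left.1
      (s2 _).1), b t, fun i h => by
        beta_reduce; rw [e t i h]; exact (d2 _).2.2.imp_left inf_eq_left.1, ?_⟩⟩
  beta_reduce
  induction t with
  | zero => simp [t2]
  | succ t ih =>
    have k := (p2 (t, st t)).1
    have g : ∀ i ≤ t, (st (t + 1)).getD i ⊤ ⊓ (st (t + 1)).getD (t + 1) ⊤ = ⊥ := fun i h => by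
      by_cases j : i = P (t, st t)
      · refine le_bot_iff.1 ((inf_le_inf ?_ (a t)).trans_eq (compl_inf_self _))
        rw [e _ _ (by omega)]
        exact (c _ _).trans (by rw [r2, if_neg (by omega), if_pos j, ← j]; exact inf_le_right)
      · exact le_bot_iff.1 ((inf_le_inf (b t i h) ((a t).trans (inf_eq_left.1 (s2 _).1))).trans_eq
          ((ih i h).2 _ k j))
    refine fun i h => ⟨?_, fun j h' n => ?_⟩
    · rw [e _ _ h]
      refine (d2 _).2.1.resolve_left ?_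
      rw [r2]
      split_ifs with x y
      exacts [((s2 _).2.resolve_left (ih _ k).1).1, ((s2 _).2.resolve_left (ih _ (by omega)).1).2,
        (ih _ (by omega)).1]
    · rcases h.eq_or_lt with rfl | h
      · rw [inf_comm, g j (by omega)]
      rcases h'.eq_or_lt with rfl | h'
      · exact g i (by omega)
      · exact le_bot_iff.1 ((inf_le_inf (b t i (by omega)) (b t j (by omega))).trans_eq
          ((ih i (by omega)).2 j (by omega) n))

theorem stab {u : ℕ → ℕ} {n b : ℕ} (h : ∀ t ≥ n, u t ≤ u (t + 1)) (k : ∀ t, u t < b) :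
    ∃ a, ∃ s ≥ n, ∀ t ≥ s, u t = a := by
  have c : BddAbove (u '' Ici n) := ⟨b, forall_mem_image.2 fun t _ => (k t).le⟩
  obtain ⟨s, h1, e⟩ := Nat.sSup_mem ((nonempty_Ici (a := n)).image u) c
  refine ⟨u s, s, h1, fun t a => (e ▸ le_csSup c ⟨t, le_trans h1 a, rfl⟩).antisymm ?_⟩
  induction a with
  | refl => rfl
  | step a ih => exact ih.trans (h _ (le_trans h1 a))

theorem main (h1 : CI O fun z : Q × Q => z.1 ⊓ z.2) (h2 : CI O fun x : Q => xᶜ) [Nontrivial Q]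
    (hQ : ∀ a : Q, ¬ IsAtom a) {A : Set ℕ} (hA : REPred (· ∈ A)) :
    ∃ I : Ideal Q, IsMax I ∧ TuringEquivalent (chi (encode '' (I : Set Q))) (chi A) := by
  classical
  obtain ⟨N, n1, n2, n3, n4⟩ := re_bool hA
  obtain ⟨a, a1, a2, a3, a4⟩ : ∃ a : ℕ → ℕ, Primrec a ∧ (∀ s, a s ≤ s) ∧ (∀ s n, n < a s → N n (s + 1) = N n s) ∧
      ∀ s, a s < s → N (a s) (s + 1) ≠ N (a s) s :=
    ⟨fun s => (List.range s).findIdx fun n => N n (s + 1) != N n s, by simp only [bne]; fun_prop,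
      fun s => List.findIdx_le_length.trans_eq List.length_range, fun s n h => by
        simpa using List.not_of_lt_findIdx h, fun s h => by
          simpa using List.findIdx_getElem (w := h.trans_eq List.length_range.symm)⟩
  have a5 : ∀ n t, (∀ s > t, n < a s) → n ∈ A → N n (t + 1) := fun n t h k => by
    obtain ⟨u, k⟩ := n4 n k
    have : ∀ s, N n (t + 1 + s) = N n (t + 1) := fun s => by
      induction s with
      | zero => rfl
      | succ s ih => rw [← add_assoc, a3 _ _ (h _ (by omega)), ih]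
    exact this u ▸ n3 _ _ _ (by omega) k
  have a6 : ∀ n, ∃ i ≥ n, n < a i ∧ ∀ u > i, a i ≤ a u := fun n => by
    obtain ⟨M, h⟩ := eventually_atTop.1 ((eventually_gt_atTop n).and ((eventually_all_finite (finite_le_nat n)).2
      fun m _ => show ∀ᶠ s in atTop, N m (s + 1) = N m s from by
        by_cases e : ∃ t, N m t
        · exact e.elim fun t e => (eventually_ge_atTop t).mono fun s h => by
            rw [n3 _ _ _ h e, n3 _ _ _ (h.trans s.le_succ) e]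
        · exact .of_forall fun s => by simp [Bool.eq_false_iff.2 (not_exists.1 e _)]))
    have ex : ∃ k, ∃ i ≥ M, a i = k := ⟨_, M, le_rfl, rfl⟩
    obtain ⟨i, i1, i2⟩ := Nat.find_spec ex
    exact ⟨i, (h i i1).1.le, not_le.1 fun k => a4 i (k.trans_lt (h i i1).1) ((h i i1).2 _ k), fun u k =>
      i2 ▸ Nat.find_min' ex ⟨u, by omega, rfl⟩⟩
  obtain ⟨al, l1, l2⟩ : ∃ al : ℕ → ℕ → Bool, CI O (fun z : ℕ × ℕ => al z.1 z.2) ∧ ∀ i t, al i t ↔
      ∀ u < t + 1, i < u → a i ≤ a u := ⟨fun _ _ => cd _, by fun_prop, fun _ _ => cd_true⟩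
  obtain ⟨q, q1, q2⟩ : ∃ q : ℕ → Q, Primrec q ∧ ∀ x, q (encode x) = x :=
    ⟨fun n => (decode n).getD ⊥, by fun_prop, by simp⟩
  obtain ⟨E, e1, e2⟩ : ∃ E : ℕ → ℕ → ℕ → Bool, Primrec (fun z : ℕ × ℕ × ℕ => E z.1 z.2.1 z.2.2) ∧ ∀ t e m,
      E t e m = (evaln t (ofNat Code e) (encode (q m))).isSome := ⟨_, by fun_prop, fun _ _ _ => rfl⟩
  have e3 : ∀ {t u e m}, t ≤ u → E t e m → E u e m := fun h k => by
    rw [e2, Option.isSome_iff_exists] at *
    exact k.imp fun _ => evaln_mono h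
  obtain ⟨v, v1, v2, v3⟩ : ∃ v : Q → ℕ → ℕ → ℕ, CI O (fun z : Q × ℕ × ℕ => v z.1 z.2.1 z.2.2) ∧
      (∀ b t, v b t 0 = 0) ∧ ∀ b t e, v b t (e + 1) = 2 * v b t e + if ∃ m < t, E t e m ∧ b ⊓ q m = b then 1 else 0 :=
    ⟨fun b t n => Nat.rec 0 (fun e a => 2 * a + if ∃ m < t, E t e m ∧ b ⊓ q m = b then 1 else 0) n, by fun_prop,
      fun _ _ => rfl, fun _ _ _ => rfl⟩
  have v4 : ∀ {b c t u} n, b ≤ c → t ≤ u → v c t n ≤ v b u n := fun {b c t u} n h k => by
    induction n with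
    | zero => simp [v2]
    | succ n ih =>
      rw [v3, v3]
      split_ifs with x y <;> try omega
      exact (y (x.imp fun m x => ⟨x.1.trans_le k, e3 k x.2.1, inf_eq_left.2 (h.trans (inf_eq_left.1 x.2.2))⟩)).elim
  have v5 : ∀ b t n, v b t n < 2 ^ n := fun b t n => by
    induction n with
    | zero => simp [v2]
    | succ n ih => rw [v3]; split_ifs <;> omega
  have v6 : ∀ {b c t n m}, n ≤ m → v b t n < v c t n → v b t m < v c t m := fun h k => by
    induction h with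
    | refl => exact k
    | step _ ih => rw [v3, v3]; split_ifs <;> omega
  obtain ⟨f, p, f1, f2⟩ := run h1 h2 hQ l1 (fun t => (l2 t t).2 (by omega)) (w := fun b t => v b t t)
    (by fun_prop) (ci_prim q1)
  have mono : ∀ {i t u}, i ≤ t → t ≤ u → f u i ≤ f t i := fun h k => by
    induction k with
    | refl => rfl
    | step k ih => exact ((f2 _).2.2.1 _ (h.trans k)).trans ih
  have anc : ∀ {t u}, t ≤ u → ∀ j ≤ u, ∃ k ≤ t, f u j ≤ f t k ∧ (al j u → al k t) := fun {t u} h => by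
    induction h with
    | refl => exact fun j h => ⟨j, h, le_rfl, id⟩
    | @step u _ ih =>
      intro j h
      rcases h.eq_or_lt with rfl | h
      · obtain ⟨k, k1, k2, k3⟩ := ih _ (f2 u).1.1
        exact ⟨k, k1, (f2 u).2.1.trans k2, fun _ => k3 (f2 u).1.2.1⟩
      · obtain ⟨k, k1, k2, k3⟩ := ih j (Nat.le_of_lt_succ h)
        exact ⟨k, k1, ((f2 u).2.2.1 _ (Nat.le_of_lt_succ h)).trans k2, fun c => k3 ((l2 _ _).2 fun w x =>
          (l2 _ _).1 c w (Nat.lt_succ_of_lt x))⟩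
  have bot : ∀ {x y z w : Q}, x ≤ y → z ≤ w → y ⊓ w = ⊥ → x ⊓ z = ⊥ := fun h k e =>
    le_bot_iff.1 ((inf_le_inf h k).trans_eq e)
  have dec : ∀ x t, encode x < t → ∀ i ≤ t, f t i ≤ x ∨ x ⊓ f t i = ⊥ := fun x t h i k => by
    obtain ⟨j, j1, j2, -⟩ := anc h i k
    have := (f2 (encode x)).2.2.2.1 j j1
    rw [q2, inf_comm] at this
    exact this.imp j2.trans (bot le_rfl j2)
  have pers : ∀ t u x y, t ≤ u → y ≤ x → (∀ i < t + 1, al i t → x ⊓ f t i = ⊥) →
      ∀ i < u + 1, al i u → y ⊓ f u i = ⊥ := fun t u x y h k c i i1 i2 => by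
    obtain ⟨j, j1, j2, j3⟩ := anc h i (by omega)
    exact bot k j2 (c j (by omega) (j3 i2))
  obtain ⟨I, i1, i2⟩ := ideal (g := fun t x => ∀ i < t + 1, al i t → x ⊓ f t i = ⊥) (by fun_prop) (by simp) pers
    fun t x y h k i c d => by rw [inf_sup_right, h i c d, k i c d, bot_sup_eq]
  have tr : ∀ {i}, (∀ u > i, a i ≤ a u) → ∀ t, al i t := fun h t => (l2 _ _).2 fun u _ => h u
  have nm : ∀ x, x ∉ I ↔ ∃ t i, i ≤ t ∧ (∀ u > i, a i ≤ a u) ∧ f t i ⊓ x = f t i := fun x => by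
    rw [i2]
    refine ⟨fun h => ?_, fun ⟨t, i, h, k, e⟩ ⟨u, c⟩ => ((f2 (max t u)).2.2.2.2 i (by omega)).1 ?_⟩
    · obtain ⟨t, t1, t2, t3⟩ := a6 (encode x + 1)
      obtain ⟨i, c⟩ := not_forall.1 (not_exists.1 h t)
      simp only [Classical.not_imp, l2] at c
      refine ⟨t, i, by omega, fun u k => ?_, inf_eq_left.2 ((dec x t t1 i (by omega)).resolve_right c.2.2)⟩
      have := c.2.1 u
      have := c.2.1 t
      have := t3 u
      by_cases e : i = t
      exacts [e ▸ t3 u (e ▸ k), by omega]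
    · rw [← pers u (max t u) x x (le_max_right _ _) le_rfl c i (by omega) (tr k _), eq_comm, inf_eq_right]
      exact (mono h (le_max_left _ _)).trans (inf_eq_left.1 e)
  refine ⟨I, ⟨i1, ?_, fun J j1 j2 => ?_⟩, ?_⟩
  · choose M m1 m2 using fun i => ideal (g := fun t x => x ⊓ f (i + t) i = ⊥) (by fun_prop) (by simp)
      (fun t u x y h k => bot k (mono (by omega) (by omega))) fun t x y h k => by rw [inf_sup_right, h, k, bot_sup_eq]
    refine infinite_of_injOn_mapsTo (f := M) (s := {i | ∀ u > i, a i ≤ a u}) (fun i c j d e => by_contra fun h => ?_)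
      (fun i c => ⟨m1 i, fun x h => ((i2 x).1 h).elim fun t h => (m2 i x).2 ⟨t, pers t _ x x (by omega) le_rfl h i
        (by omega) (tr c _)⟩⟩) (infinite_of_forall_exists_gt fun n => (a6 (n + 1)).imp fun i h => ⟨h.2.2, h.1⟩)
    obtain ⟨t, k⟩ := (m2 i _).1 (e ▸ (m2 j (f (j + i) i)).2 ⟨i, ((f2 _).2.2.2.2 i (by omega)).2 j (by omega) h⟩)
    exact ((f2 (i + t + j + i)).2.2.2.2 i (by omega)).1 ((inf_idem _).symm.trans (bot (mono (by omega) (by omega))
      (mono (by omega) (by omega)) k))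
  · obtain ⟨c, hc⟩ := re_code j1
    have u1 : ∀ t ≥ encode c + 1, ∀ i ≤ t, al i t → v (f t i) t (encode c + 1) ≤ v (f t (p t)) t (encode c + 1) :=
      fun t h i k l => not_lt.1 fun m => (v6 h m).not_ge ((f2 t).1.2.2 i k l)
    have u2 : ∀ t, v (f t (p t)) t (encode c + 1) ≤ v (f (t + 1) (t + 1)) (t + 1) (encode c + 1) :=
      fun t => v4 _ (f2 t).2.1 t.le_succ
    have u3 : ∀ t, al t t := fun t => (l2 t t).2 (by omega)
    obtain ⟨θ, s, s1, s2⟩ := stab (u := fun t => v (f t t) t (encode c + 1)) (fun t h => (u1 t h t le_rfl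
      (u3 t)).trans (u2 t)) fun t => v5 _ _ _
    have b1 : ∀ b t, v b t (encode c + 1) % 2 = 1 → b ∈ J := fun b t h => by
      rw [v3] at h
      split_ifs at h with k
      · obtain ⟨m, -, k, e⟩ := k
        rw [e2, ofNat_encode, Option.isSome_iff_exists] at k
        exact J.lower (inf_eq_left.1 e) ((hc _).2 (Part.dom_iff_mem.2 (k.imp fun _ => evaln_sound)))
      · omega
    obtain ⟨x, x1, x2⟩ : ∃ x ∈ J, ∀ i < s + 1, ∀ t ≥ i, f t i ∈ J → f t i ≤ x := by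
      induction s + 1 with
      | zero => exact ⟨⊥, J.bot_mem, by simp⟩
      | succ k ih =>
        obtain ⟨x, x1, x2⟩ := ih
        obtain ⟨y, y1, y2⟩ : ∃ y ∈ J, ∀ t ≥ k, f t k ∈ J → f t k ≤ y := by
          by_cases e : ∃ t ≥ k, f t k ∈ J
          · exact ⟨_, (Nat.find_spec e).2, fun t h l => mono (Nat.find_spec e).1 (Nat.find_min' e ⟨h, l⟩)⟩
          · exact ⟨⊥, J.bot_mem, fun t h l => (e ⟨t, h, l⟩).elim⟩
        exact ⟨x ⊔ y, J.sup_mem x1 y1, fun i h t k l => (Nat.lt_succ_iff_lt_or_eq.1 h).elim (fun h =>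
          (x2 i h t k l).trans le_sup_left) fun h => by subst h; exact (y2 t k l).trans le_sup_right⟩
    have cl : θ % 2 = 1 → ∀ j > s, f j j ≤ x := fun h j => by
      induction j using Nat.strong_induction_on with
      | _ j ih =>
        intro k
        obtain ⟨t, rfl⟩ := Nat.exists_eq_add_one_of_ne_zero (n := j) (by omega)
        have := (f2 t).1.1
        refine (f2 t).2.1.trans ?_
        by_cases e : p t ≤ s
        · refine x2 _ (by omega) _ this (b1 _ t ?_)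
          rwa [((u2 t).trans_eq (s2 _ k.le)).antisymm ((s2 t (by omega)).ge.trans (u1 t (by omega) t le_rfl (u3 t)))]
        · exact (mono le_rfl this).trans (ih _ (by omega) (by omega))
    refine ⟨x, le_antisymm (fun z h => Ideal.mem_sup.2 ⟨z ⊓ xᶜ, ?_, x, Ideal.mem_principal.2 le_rfl, by
      simp [sup_inf_right]⟩) (sup_le j2 (Ideal.principal_le_iff.2 x1))⟩
    obtain ⟨w, k⟩ := evaln_complete.1 (Part.get_mem ((hc z).1 h))
    refine (i2 _).2 ⟨encode z + 1 + w + s, fun i c1 c2 => (dec z _ (by omega) i (by omega)).elim (fun e => ?_)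
      (bot inf_le_left le_rfl)⟩
    refine bot inf_le_right ?_ (compl_inf_self x)
    by_cases l : i ≤ s
    · exact x2 i (by omega) _ (by omega) (J.lower e h)
    refine (mono le_rfl (by omega)).trans (cl ?_ i (by omega))
    rw [← ((u1 _ (by omega) i (by omega) c2).trans ((u2 _).trans_eq (s2 _ (by omega)))).antisymm
      ((s2 i (by omega)).ge.trans (v4 _ (mono le_rfl (by omega)) (by omega))), v3, if_pos ⟨encode z, by omega,
        e3 (t := w) (by omega) (by rw [e2, q2, ofNat_encode]; exact Option.isSome_iff_exists.2 ⟨_, k⟩),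
          by rwa [q2, inf_eq_left]⟩]
    omega
  rw [chi_eq, chi_eq]
  obtain ⟨X, hX⟩ : ∃ X : ℕ → Bool, X = fun n => cd (n ∈ encode '' (I : Set Q)) := ⟨_, rfl⟩
  obtain ⟨Y, hY⟩ : ∃ Y : ℕ → Bool, Y = fun n => cd (n ∈ A) := ⟨_, rfl⟩
  have x1 : ∀ x, X (encode x) = false ↔ x ∉ I := fun x => by
    simp [hX, ← Bool.not_eq_true]
  have g1 := ci_comput f1
  have g2 := ci_comput h1
  constructor
  · have := ci_self Y
    have : CI Y _ := Computable.ci g1
    have : CI Y _ := Computable.ci g2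
    have : RI Y (· ∈ I) := (i_re (RE.mk i1)).un
    rw [← hY]
    refine CI.orc ((ci_dec (Y := Y) (p := fun n => encode (q n) = n ∧ q n ∈ I) (q := fun n => encode (q n) ≠ n ∨
      ∃ t i, i ≤ t ∧ (∀ m < a i, Y m = false ∨ N m (i + 1)) ∧ f t i ⊓ q n = f t i) (by fun_prop) (by fun_prop)
        fun n => ?_).of_eq fun n => congrArg cd (propext ⟨fun h => ⟨_, h.2, h.1⟩, by
          rintro ⟨x, h, rfl⟩; simpa [q2] using h⟩))
    rw [not_and_or, nm]
    refine or_congr_right (exists₂_congr fun t i => and_congr_right fun _ => and_congr_left fun _ =>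
      ⟨fun h u k => not_lt.1 fun l => a4 u (by have := a2 i; omega) ?_, fun h m k => or_iff_not_imp_left.2
        fun l => a5 m i (fun u c => k.trans_le (h u c)) (by simpa [hY] using l)⟩)
    rcases h _ l with c | c
    · have : ∀ t, N (a u) t = false := fun t => Bool.eq_false_iff.2 fun d => by simp [hY, cd_true.2 (n2 _ _ d)] at c
      rw [this, this]
    · rw [n3 _ _ _ k c, n3 _ _ _ (by omega) c]
  · have := ci_self X
    have : CI X _ := Computable.ci g1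
    rw [← hX]
    refine CI.orc (ci_dec (Y := X) (q := fun n => ∃ j i, i < j ∧ n < a i ∧ n < a j ∧ X (encode (f j i)) = false ∧
      X (encode (f j j)) = false ∧ N n (j + 1) = false) (i_re (RE.mk hA)) (by fun_prop) fun n => ?_)
    simp only [x1]
    refine ⟨fun ⟨j, i, c1, c2, c3, c4, c5, c6⟩ h => ?_, fun h => ?_⟩
    · refine Bool.eq_false_iff.1 c6 (a5 n j (fun s k => not_le.1 fun l => ?_) h)
      have ex : ∃ s > j, a s ≤ n := ⟨s, k, l⟩
      obtain ⟨s1, s2⟩ := Nat.find_spec ex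
      obtain ⟨r, r1, r2, -⟩ := anc s1.le _ le_rfl
      have : ∀ y ≤ j, n < a y → y ≠ r → f j y ∈ I := fun y y1 y2 y3 => (i2 _).2 ⟨Nat.find ex, fun w w1 w2 => by
        rcases (Nat.le_of_lt_succ w1).eq_or_lt with rfl | w1
        · exact bot le_rfl r2 (((f2 j).2.2.2.2 y y1).2 r r1 y3)
        have := (l2 _ _).1 w2 _ (Nat.lt_succ_self _) w1
        have : w ≤ j := not_lt.1 fun m => Nat.find_min ex w1 ⟨m, by omega⟩
        exact bot le_rfl (mono this s1.le) (((f2 j).2.2.2.2 y y1).2 w this (by rintro rfl; omega))⟩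
      by_cases e : i = r
      exacts [c5 (this j le_rfl c3 (by omega)), c4 (this i c1.le c2 e)]
    · obtain ⟨i, i1, i2, i3⟩ := a6 n
      obtain ⟨j, j1, j2, j3⟩ := a6 (i + 1)
      exact ⟨j, i, j1, i2, by omega, (nm _).2 ⟨j, i, by omega, i3, inf_idem _⟩, (nm _).2 ⟨j, j, le_rfl, j3,
        inf_idem _⟩, Bool.eq_false_iff.2 fun k => h (n2 _ _ k)⟩

/-- The degrees of maximal c.e. ideals are exactly the c.e. degrees. -/
theorem result (h1 : Computable fun z : Q × Q => z.1 ⊓ z.2) (h2 : Computable fun x : Q => xᶜ) [Nontrivial Q]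
    (hQ : ∀ a : Q, ¬ IsAtom a) (A : Set ℕ) :
    (∃ I : Ideal Q, IsMax I ∧ TuringEquivalent (chi (encode '' (I : Set Q))) (chi A)) ↔
      ∃ W : Set ℕ, REPred (· ∈ W) ∧ TuringEquivalent (chi W) (chi A) := by
  refine ⟨fun ⟨I, h, k⟩ => ⟨_, ?_, k⟩, fun ⟨W, h, k⟩ => (main (Computable.ci h1) (Computable.ci h2) hQ h).imp
    fun I c => ⟨c.1, c.2.trans _ _ _ k⟩⟩
  have : RE (· ∈ I) := .un h.1
  exact RE.re (p := fun n => ∃ x, x ∈ I ∧ encode x = n) (by fun_prop)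

end Pool.Agent.Results.MP_460ee8_lc.All
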